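import Pool.Agent.N299.DT.Stm2
import Pool.Agent.H930R2.ZS_WU

/-!
# DT/FBM: the fibre of the dimension drop algebra at `0 < t < 1`
-/

set_option autoImplicit false

open scoped Matrix.Norms.L2Operator

noncomputable section

namespace Pool.Agent.N403.DTFBM

open Pool.Agent.N299.DT
open Pool.Agent.H308R2.ZS (dimDrop MM Vals Ix WW D0 V0 phf vhf)

/-- A unital `*`-homomorphism from matrix units. -/
def rho {I : Type} [Fintype I] [DecidableEq I] {F : Type} [CStarAlgebra F] (e : I → I → F)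
    (he : ∀ p q r s, e p q * e r s = if q = r then e p s else 0)
    (hs : ∀ p q, star (e p q) = e q p) (h1 : ∑ p, e p p = 1) : Matrix I I ℂ →⋆ₐ[ℂ] F where
  toFun M := ∑ p, ∑ q, M p q • e p q
  map_one' := by
    have : ∀ p : I, ∑ q, (1 : Matrix I I ℂ) p q • e p q = e p p := by
      intro p
      rw [Finset.sum_eq_single p]
      · rw [Matrix.one_apply_eq, one_smul]
      · intro q _ hq
        rw [Matrix.one_apply_ne (Ne.symm hq), zero_smul]
      · intro h
        exact absurd (Finset.mem_univ _) h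
    rw [Finset.sum_congr rfl fun p _ => this p, h1]
  map_mul' M N := by
    have key : ∀ p q r s, (M p q • e p q) * (N r s • e r s) =
        if q = r then (M p q * N r s) • e p s else 0 := by
      intro p q r s
      rw [smul_mul_smul_comm, he, smul_ite, smul_zero]
    rw [Finset.sum_mul_sum]
    refine Finset.sum_congr rfl fun p _ => ?_
    have h2 : ∀ r : I, (∑ q, M p q • e p q) * (∑ s, N r s • e r s) =
        ∑ q, ∑ s, (if q = r then (M p q * N r s) • e p s else 0) := by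
      intro r
      rw [Finset.sum_mul_sum]
      exact Finset.sum_congr rfl fun q _ => Finset.sum_congr rfl fun s _ => key p q r s
    rw [Finset.sum_congr rfl fun r _ => h2 r, Finset.sum_comm]
    have h3 : ∀ q : I, ∑ r, ∑ s, (if q = r then (M p q * N r s) • e p s else 0) =
        ∑ s, (M p q * N q s) • e p s := by
      intro q
      rw [Finset.sum_eq_single q]
      · simp
      · intro r _ hr
        simp [Ne.symm hr]
      · intro h
        exact absurd (Finset.mem_univ _) h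
    rw [Finset.sum_congr rfl fun q _ => h3 q, Finset.sum_comm]
    refine Finset.sum_congr rfl fun s _ => ?_
    rw [Matrix.mul_apply, Finset.sum_smul]
  map_zero' := by simp
  map_add' M N := by
    simp only [Matrix.add_apply, add_smul, Finset.sum_add_distrib]
  commutes' c := by
    have : ∀ p : I, ∑ q, (algebraMap ℂ (Matrix I I ℂ) c) p q • e p q = c • e p p := by
      intro p
      rw [Finset.sum_eq_single p]
      · rw [Matrix.algebraMap_matrix_apply, if_pos rfl]
        rfl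
      · intro q _ hq
        rw [Matrix.algebraMap_matrix_apply, if_neg (Ne.symm hq), zero_smul]
      · intro h
        exact absurd (Finset.mem_univ _) h
    rw [Finset.sum_congr rfl fun p _ => this p, ← Finset.smul_sum, h1,
      Algebra.algebraMap_eq_smul_one]
  map_star' M := by
    simp only [star_sum, star_smul, hs, Matrix.star_apply]
    rw [Finset.sum_comm]

lemma rho_apply {I : Type} [Fintype I] [DecidableEq I] {F : Type} [CStarAlgebra F] (e : I → I → F)
    (he : ∀ p q r s, e p q * e r s = if q = r then e p s else 0)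
    (hs : ∀ p q, star (e p q) = e q p) (h1 : ∑ p, e p p = 1) (M : Matrix I I ℂ) :
    rho e he hs h1 M = ∑ p, ∑ q, M p q • e p q := rfl

section
variable {F : Type} [CStarAlgebra F] {n : ℕ} {φ : Fin (n + 1) → Fin (n + 1) → F} {v : F}

/-- the support of the order zero map -/
def hh (φ : Fin (n + 1) → Fin (n + 1) → F) : F := ∑ m, φ m m

lemma h_mul (hR : RV φ v) (i j : Fin (n + 1)) : hh φ * φ i j = φ i j * hh φ := by
  have h1 : φ i j * hh φ = hh φ * φ i j := by
    rw [hh, Finset.mul_sum, Finset.sum_eq_single j]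
    · exact hR.mul i j j
    · intro m _ hm
      exact hR.orth i j m m (Ne.symm hm)
    · intro h
      exact absurd (Finset.mem_univ _) h
  exact h1.symm

lemma mul_mul (hR : RV φ v) (i j l : Fin (n + 1)) : φ i j * φ j l = hh φ * φ i l := hR.mul i j l

lemma h_star (hR : RV φ v) : star (hh φ) = hh φ := by
  rw [hh, star_sum]
  exact Finset.sum_congr rfl fun m _ => hR.st m m

lemma phi_v (hR : RV φ v) (i j : Fin (n + 1)) (hj : j ≠ 0) : φ i j * v = 0 := by
  rw [← hR.ve, ← mul_assoc, hR.orth i j 0 0 hj, zero_mul]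

lemma h_v (hR : RV φ v) : hh φ * v = v := by
  rw [hh, Finset.sum_mul, Finset.sum_eq_single 0]
  · exact hR.ve
  · intro m _ hm
    exact phi_v hR m m hm
  · intro h
    exact absurd (Finset.mem_univ _) h

lemma vs_h (hR : RV φ v) : star v * hh φ = star v := by
  have := congrArg star (h_v hR)
  rwa [star_mul, h_star hR] at this

lemma vsv (hR : RV φ v) : star v * v = 1 - hh φ := hR.vv

lemma zero_of (x : F) (h : star x * x = 0) : x = 0 := by
  have h1 := CStarRing.norm_star_mul_self (x := x)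
  rw [h, norm_zero] at h1
  have h2 : ‖x‖ = 0 := by
    by_contra h3
    have := mul_self_pos.2 h3
    linarith
  exact norm_eq_zero.1 h2

lemma v_phi_v (hR : RV φ v) (i : Fin (n + 1)) : v * φ i 0 * v = 0 := by
  apply zero_of
  have h1 : star (v * φ i 0 * v) * (v * φ i 0 * v) =
      star v * (φ 0 i * ((star v * v) * φ i 0)) * v := by
    rw [star_mul, star_mul, hR.st]
    noncomm_ring
  rw [h1, vsv hR, sub_mul, one_mul, h_mul hR, mul_sub, ← mul_assoc (φ 0 i), mul_mul hR]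
  have h2 : star v * (hh φ * φ 0 0 - hh φ * φ 0 0 * hh φ) * v =
      star v * (hh φ * (φ 0 0 * v)) - star v * (hh φ * (φ 0 0 * (hh φ * v))) := by
    noncomm_ring
  rw [h2, h_v hR, sub_self]

variable {t : ℝ}

lemma k_sq (hR : RV φ v) (hz : zel φ v = (t : ℂ) • (1 : F)) :
    (1 - hh φ) * (1 - hh φ) = (t : ℂ) • (1 - hh φ) := by
  have h1 : zel φ v * (1 - hh φ) = (1 - hh φ) * (1 - hh φ) := by
    rw [zel, add_mul, vsv hR, Finset.sum_mul]
    have h2 : ∀ i, φ i 0 * (v * star v) * φ 0 i * (1 - hh φ) = 0 := by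
      intro i
      have h3 : φ 0 i * (1 - hh φ) = (1 - hh φ) * φ 0 i := by
        rw [mul_sub, sub_mul, h_mul hR, mul_one, one_mul]
      have h4 : star v * (1 - hh φ) = 0 := by rw [mul_sub, vs_h hR, mul_one, sub_self]
      calc φ i 0 * (v * star v) * φ 0 i * (1 - hh φ) =
            φ i 0 * v * (star v * (1 - hh φ)) * φ 0 i := by
            rw [mul_assoc, h3]; noncomm_ring
        _ = 0 := by rw [h4, mul_zero, zero_mul]
    rw [Finset.sum_eq_zero fun i _ => h2 i, add_zero]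
  rw [← h1, hz, smul_mul_assoc, one_mul]

lemma v_vs_v (hR : RV φ v) (hz : zel φ v = (t : ℂ) • (1 : F)) : v * (1 - hh φ) = (t : ℂ) • v := by
  have h1 : zel φ v * v = v * (star v * v) := by
    rw [zel, add_mul, vsv hR, Finset.sum_mul, Finset.sum_eq_single 0]
    · have h2 : φ 0 0 * (v * star v) * φ 0 0 * v = v * (star v * v) := by
        rw [mul_assoc _ (φ 0 0) v, hR.ve, ← mul_assoc (φ 0 0), hR.ve, mul_assoc]
      rw [h2, vsv hR, sub_mul, one_mul, h_v hR, sub_self, zero_add]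
    · intro i _ hi
      rw [mul_assoc _ (φ 0 i) v, phi_v hR 0 i hi, mul_zero]
    · intro h
      exact absurd (Finset.mem_univ _) h
  rw [← vsv hR, ← h1, hz, smul_mul_assoc, one_mul]

lemma v_h (hR : RV φ v) (hz : zel φ v = (t : ℂ) • (1 : F)) : v * hh φ = (1 - t : ℂ) • v := by
  have h1 := v_vs_v hR hz
  rw [mul_sub, mul_one, sub_eq_iff_eq_add] at h1
  rw [sub_smul, one_smul]
  nth_rewrite 2 [h1]
  rw [add_sub_cancel_left]

lemma h_k (hR : RV φ v) (hz : zel φ v = (t : ℂ) • (1 : F)) :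
    hh φ * (1 - hh φ) = (1 - t : ℂ) • (1 - hh φ) := by
  have h1 := k_sq hR hz
  rw [sub_mul, one_mul, sub_eq_iff_eq_add] at h1
  rw [sub_smul, one_smul]
  nth_rewrite 2 [h1]
  rw [add_sub_cancel_left]

lemma k_star (hR : RV φ v) : star (1 - hh φ) = 1 - hh φ := by rw [star_sub, star_one, h_star hR]

lemma k_phi (hR : RV φ v) (i j : Fin (n + 1)) : (1 - hh φ) * φ i j = φ i j * (1 - hh φ) := by
  rw [sub_mul, mul_sub, one_mul, mul_one, h_mul hR]

/-- the vectors -/
def xv (φ : Fin (n + 1) → Fin (n + 1) → F) (v : F) (s : ℝ) (p : Ix n) : F :=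
  Fin.lastCases (motive := fun _ => F) (φ p.1 0 * (1 - hh φ))
    (fun k => (s : ℂ) • (φ p.1 0 * v * φ k 0)) p.2

lemma xv_last (s : ℝ) (i : Fin (n + 1)) :
    xv φ v s (i, Fin.last (n + 1)) = φ i 0 * (1 - hh φ) := by
  show Fin.lastCases (motive := fun _ => F) _ _ (Fin.last (n + 1)) = _
  rw [Fin.lastCases_last]

lemma xv_cast (s : ℝ) (i k : Fin (n + 1)) :
    xv φ v s (i, k.castSucc) = (s : ℂ) • (φ i 0 * v * φ k 0) := by
  show Fin.lastCases (motive := fun _ => F) _ _ k.castSucc = _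
  rw [Fin.lastCases_castSucc]

/-- the inner product -/
def y0 (φ : Fin (n + 1) → Fin (n + 1) → F) (t : ℝ) : F := (t * (1 - t) : ℂ) • ((1 - hh φ) * φ 0 0)

@[elab_as_elim]
lemma cases_Ix {P : Ix n → Prop} (p : Ix n) (h1 : ∀ i, P (i, Fin.last (n + 1)))
    (h2 : ∀ (i k : Fin (n + 1)), P (i, k.castSucc)) : P p := by
  obtain ⟨i, k⟩ := p
  refine Fin.lastCases (motive := fun k => P (i, k)) (h1 i) (fun k => h2 i k) k

/-- `φ 0 i * φ j 0` -/
lemma phi_phi (hR : RV φ v) (i j : Fin (n + 1)) :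
    φ 0 i * φ j 0 = if i = j then hh φ * φ 0 0 else 0 := by
  split_ifs with h
  · rw [h, mul_mul hR]
  · exact hR.orth 0 i j 0 h

lemma inner_ll (hR : RV φ v) (hz : zel φ v = (t : ℂ) • (1 : F)) (i j : Fin (n + 1)) :
    star (φ i 0 * (1 - hh φ)) * (φ j 0 * (1 - hh φ)) = if i = j then y0 φ t else 0 := by
  rw [star_mul, k_star hR, hR.st]
  have h1 : (1 - hh φ) * φ 0 i * (φ j 0 * (1 - hh φ)) = (1 - hh φ) * (φ 0 i * φ j 0) * (1 - hh φ) := by
    noncomm_ring
  rw [h1, phi_phi hR]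
  split_ifs with h
  · rw [← k_phi hR] at h1
    have h2 : (1 - hh φ) * (hh φ * φ 0 0) * (1 - hh φ) =
        (1 - hh φ) * hh φ * (φ 0 0 * (1 - hh φ)) := by noncomm_ring
    have h3 : (1 - hh φ) * hh φ = hh φ * (1 - hh φ) := by noncomm_ring
    rw [h2, ← k_phi hR, h3, h_k hR hz, smul_mul_assoc, ← mul_assoc, k_sq hR hz, smul_mul_assoc,
      smul_smul, y0, mul_comm]
  · rw [mul_zero, zero_mul]

lemma inner_lc (hR : RV φ v) (s : ℝ) (i j l : Fin (n + 1)) :
    star (φ i 0 * (1 - hh φ)) * ((s : ℂ) • (φ j 0 * v * φ l 0)) = 0 := by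
  rw [star_mul, k_star hR, hR.st, mul_smul_comm]
  have h1 : (1 - hh φ) * φ 0 i * (φ j 0 * v * φ l 0) = (1 - hh φ) * (φ 0 i * φ j 0) * v * φ l 0 := by
    noncomm_ring
  rw [h1, phi_phi hR]
  split_ifs with h
  · have h2 : (1 - hh φ) * (hh φ * φ 0 0) * v * φ l 0 =
        ((1 - hh φ) * (hh φ * (φ 0 0 * v))) * φ l 0 := by noncomm_ring
    rw [h2, hR.ve, h_v hR, sub_mul, one_mul, h_v hR, sub_self, zero_mul, smul_zero]
  · rw [mul_zero, zero_mul, zero_mul, smul_zero]

lemma inner_cc (hR : RV φ v) (hz : zel φ v = (t : ℂ) • (1 : F)) {s : ℝ} (hs : s * s = t)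
    (i k j l : Fin (n + 1)) :
    star ((s : ℂ) • (φ i 0 * v * φ k 0)) * ((s : ℂ) • (φ j 0 * v * φ l 0)) =
      if i = j ∧ k = l then y0 φ t else 0 := by
  rw [star_smul, star_mul, star_mul, hR.st, hR.st, smul_mul_smul_comm]
  have h1 : φ 0 k * (star v * φ 0 i) * (φ j 0 * v * φ l 0) =
      φ 0 k * (star v * (φ 0 i * φ j 0) * v) * φ l 0 := by noncomm_ring
  have hsc : star (s : ℂ) * (s : ℂ) = (t : ℂ) := by
    rw [← hs]
    simp
  rw [h1, hsc, phi_phi hR]
  by_cases hij : i = j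
  · rw [if_pos hij]
    have h2 : star v * (hh φ * φ 0 0) * v = (star v * hh φ) * (φ 0 0 * v) := by noncomm_ring
    rw [h2, vs_h hR, hR.ve, vsv hR, ← k_phi hR, mul_assoc, phi_phi hR]
    by_cases hkl : k = l
    · rw [if_pos hkl, if_pos ⟨hij, hkl⟩]
      have h3 : (1 - hh φ) * (hh φ * φ 0 0) = (hh φ * (1 - hh φ)) * φ 0 0 := by noncomm_ring
      rw [h3, h_k hR hz, smul_mul_assoc, smul_smul, y0]
    · rw [if_neg hkl, if_neg fun h => hkl h.2, mul_zero, smul_zero]
  · rw [if_neg hij, if_neg fun h => hij h.1]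
    simp

lemma inner (hR : RV φ v) (hz : zel φ v = (t : ℂ) • (1 : F)) {s : ℝ} (hs : s * s = t) (p q : Ix n) :
    star (xv φ v s p) * xv φ v s q = if p = q then y0 φ t else 0 := by
  have hne : ∀ i j k : Fin (n + 1), ((i, Fin.last (n + 1)) : Ix n) ≠ (j, k.castSucc) := by
    intro i j k h
    have h2 : Fin.last (n + 1) = k.castSucc := (Prod.ext_iff.1 h).2
    exact absurd h2.symm (Fin.castSucc_lt_last k).ne
  refine cases_Ix p (fun i => ?_) (fun i k => ?_)
  · refine cases_Ix q (fun j => ?_) (fun j l => ?_)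
    · rw [xv_last, xv_last, inner_ll hR hz]
      by_cases h : i = j
      · rw [if_pos h, if_pos (by rw [h])]
      · rw [if_neg h, if_neg (fun h' => h (Prod.ext_iff.1 h').1)]
    · rw [xv_last, xv_cast, inner_lc hR, if_neg (hne i j l)]
  · refine cases_Ix q (fun j => ?_) (fun j l => ?_)
    · have h := congrArg star (inner_lc hR s j i k)
      rw [star_zero, star_mul, star_star] at h
      rw [xv_last, xv_cast, h, if_neg (hne j i k).symm]
    · rw [xv_cast, xv_cast, inner_cc hR hz hs]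
      by_cases h : i = j ∧ k = l
      · rw [if_pos h, if_pos (by rw [h.1, h.2])]
      · rw [if_neg h, if_neg]
        intro h'
        have h2 := Prod.ext_iff.1 h'
        exact h ⟨h2.1, Fin.castSucc_injective _ h2.2⟩

/-- the normalization -/
def ww (t : ℝ) : ℂ := (t : ℂ) ^ 2 * (1 - t : ℂ) ^ 2

lemma xv_y0 (hR : RV φ v) (hz : zel φ v = (t : ℂ) • (1 : F)) (s : ℝ) (p : Ix n) :
    xv φ v s p * y0 φ t = ww t • xv φ v s p := by
  refine cases_Ix p (fun i => ?_) (fun i k => ?_)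
  · rw [xv_last, y0, mul_smul_comm]
    have h1 : φ i 0 * (1 - hh φ) * ((1 - hh φ) * φ 0 0) =
        φ i 0 * (((1 - hh φ) * (1 - hh φ)) * φ 0 0) := by noncomm_ring
    have h3 : φ i 0 * ((1 - hh φ) * φ 0 0) = (hh φ * (1 - hh φ)) * φ i 0 := by
      rw [← mul_assoc, ← k_phi hR, mul_assoc, mul_mul hR]
      noncomm_ring
    rw [h1, k_sq hR hz, smul_mul_assoc, mul_smul_comm, h3, h_k hR hz, smul_mul_assoc, k_phi hR,
      smul_smul, smul_smul, ww]
    congr 1
    ring
  · rw [xv_cast, y0, mul_smul_comm, smul_mul_assoc]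
    have h1 : φ i 0 * v * φ k 0 * ((1 - hh φ) * φ 0 0) =
        φ i 0 * (v * ((1 - hh φ) * (φ k 0 * φ 0 0))) := by
      rw [← mul_assoc (φ i 0 * v * φ k 0), mul_assoc (φ i 0 * v), ← k_phi hR]
      noncomm_ring
    have h2 : v * ((1 - hh φ) * (hh φ * φ k 0)) = (v * (1 - hh φ)) * hh φ * φ k 0 := by noncomm_ring
    rw [h1, mul_mul hR, h2, v_vs_v hR hz, smul_mul_assoc, v_h hR hz, smul_mul_assoc, smul_mul_assoc,
      mul_smul_comm, mul_smul_comm, ← mul_assoc]
    simp only [smul_smul, ww]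
    congr 1
    ring

lemma sum_phi (hR : RV φ v) : ∑ k, φ k 0 * φ 0 k = hh φ * hh φ := by
  have : ∀ k, φ k 0 * φ 0 k = hh φ * φ k k := fun k => mul_mul hR k 0 k
  rw [Finset.sum_congr rfl fun k _ => this k, ← Finset.mul_sum]
  rfl

lemma xv_sum (hR : RV φ v) (hz : zel φ v = (t : ℂ) • (1 : F)) {s : ℝ} (hs : s * s = t) :
    ∑ p : Ix n, xv φ v s p * star (xv φ v s p) = ww t • (1 : F) := by
  have hsc : (s : ℂ) * star (s : ℂ) = (t : ℂ) := by
    rw [← hs]
    simp
  rw [Fintype.sum_prod_type]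
  have h1 : ∀ i : Fin (n + 1), ∑ l : Fin (n + 2), xv φ v s (i, l) * star (xv φ v s (i, l)) =
      (t * (1 - t) ^ 2 : ℂ) • (φ i 0 * (v * star v) * φ 0 i) +
        φ i 0 * ((1 - hh φ) * (1 - hh φ)) * φ 0 i := by
    intro i
    rw [Fin.sum_univ_castSucc]
    have h2 : ∀ k : Fin (n + 1), xv φ v s (i, k.castSucc) * star (xv φ v s (i, k.castSucc)) =
        (t : ℂ) • (φ i 0 * v * (φ k 0 * φ 0 k) * star v * φ 0 i) := by
      intro k
      rw [xv_cast, star_smul, star_mul, star_mul, hR.st, hR.st, smul_mul_smul_comm, hsc]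
      congr 1
      noncomm_ring
    rw [Finset.sum_congr rfl fun k _ => h2 k, ← Finset.smul_sum, ← Finset.sum_mul, ← Finset.sum_mul,
      ← Finset.mul_sum, sum_phi hR, xv_last, star_mul, k_star hR, hR.st]
    have h3 : φ i 0 * v * (hh φ * hh φ) * star v * φ 0 i =
        (1 - t : ℂ) ^ 2 • (φ i 0 * (v * star v) * φ 0 i) := by
      have h4 : φ i 0 * v * (hh φ * hh φ) = φ i 0 * ((v * hh φ) * hh φ) := by noncomm_ring
      rw [h4, v_h hR hz, smul_mul_assoc, v_h hR hz, smul_smul, mul_smul_comm, smul_mul_assoc,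
        smul_mul_assoc, sq]
      congr 1
      noncomm_ring
    rw [h3, smul_smul]
    congr 1
    noncomm_ring
  rw [Finset.sum_congr rfl fun i _ => h1 i, Finset.sum_add_distrib, ← Finset.smul_sum]
  have h5 : ∑ i, φ i 0 * (v * star v) * φ 0 i = (t : ℂ) • (1 : F) - (1 - hh φ) := by
    rw [← hz, zel, vsv hR]
    abel
  have h6 : ∀ i, φ i 0 * ((1 - hh φ) * (1 - hh φ)) * φ 0 i =
      (t : ℂ) • ((1 - hh φ) * (φ i 0 * φ 0 i)) := by
    intro i
    rw [k_sq hR hz, mul_smul_comm, smul_mul_assoc, ← k_phi hR, mul_assoc]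
  rw [h5, Finset.sum_congr rfl fun i _ => h6 i, ← Finset.smul_sum, ← Finset.mul_sum, sum_phi hR]
  have h7 : (1 - hh φ) * (hh φ * hh φ) = (1 - t : ℂ) ^ 2 • (1 - hh φ) := by
    have h8 : (1 - hh φ) * (hh φ * hh φ) = hh φ * (hh φ * (1 - hh φ)) := by noncomm_ring
    rw [h8, h_k hR hz, mul_smul_comm, h_k hR hz, smul_smul, sq]
  rw [h7, smul_smul, smul_sub, smul_smul, ww]
  have h9 : (t * (1 - t) ^ 2 : ℂ) * t = (t : ℂ) ^ 2 * (1 - t : ℂ) ^ 2 := by ring
  rw [h9]
  abel

lemma phi_xv (hR : RV φ v) (hz : zel φ v = (t : ℂ) • (1 : F)) (s : ℝ) (i j : Fin (n + 1))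
    (p : Ix n) : φ i j * xv φ v s p =
      if j = p.1 then (if p.2 = Fin.last (n + 1) then (1 - t : ℂ) else 1) • xv φ v s (i, p.2) else 0 := by
  refine cases_Ix p (fun k => ?_) (fun k l => ?_)
  · by_cases h : j = k
    · subst h
      rw [if_pos rfl, if_pos rfl, xv_last, xv_last, ← mul_assoc, mul_mul hR]
      have h1 : hh φ * φ i 0 * (1 - hh φ) = (hh φ * (1 - hh φ)) * φ i 0 := by
        rw [mul_assoc, ← k_phi hR, mul_assoc]
      rw [h1, h_k hR hz, smul_mul_assoc, k_phi hR]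
    · rw [if_neg h, xv_last, ← mul_assoc, hR.orth i j k 0 h, zero_mul]
  · have hl : (l.castSucc : Fin (n + 2)) ≠ Fin.last (n + 1) := (Fin.castSucc_lt_last l).ne
    by_cases h : j = k
    · subst h
      rw [if_pos rfl, if_neg hl, one_smul, xv_cast, xv_cast, mul_smul_comm]
      congr 1
      have h1 : φ i j * (φ j 0 * v * φ l 0) = (φ i j * φ j 0) * v * φ l 0 := by noncomm_ring
      rw [h1, mul_mul hR, h_mul hR]
      have h2 : φ i 0 * hh φ * v = φ i 0 * (hh φ * v) := by noncomm_ring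
      rw [h2, h_v hR]
    · rw [if_neg h, xv_cast, mul_smul_comm]
      have h1 : φ i j * (φ k 0 * v * φ l 0) = (φ i j * φ k 0) * v * φ l 0 := by noncomm_ring
      rw [h1, hR.orth i j k 0 h, zero_mul, zero_mul, smul_zero]

lemma v_xv (hR : RV φ v) (hz : zel φ v = (t : ℂ) • (1 : F)) {s : ℝ} (hs : s * s = t) (p : Ix n) :
    v * xv φ v s p =
      if p.2 = Fin.last (n + 1) then (s : ℂ) • xv φ v s (0, p.1.castSucc) else 0 := by
  refine cases_Ix p (fun k => ?_) (fun k l => ?_)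
  · rw [if_pos rfl, xv_last, xv_cast, ← k_phi hR, ← mul_assoc, v_vs_v hR hz, hR.ve, smul_mul_assoc,
      smul_smul, ← hs]
    push_cast
    rfl
  · rw [if_neg (Fin.castSucc_lt_last l).ne, xv_cast, mul_smul_comm]
    have h1 : v * (φ k 0 * v * φ l 0) = (v * φ k 0 * v) * φ l 0 := by noncomm_ring
    rw [h1, v_phi_v hR, zero_mul, smul_zero]

/-- the matrix units -/
def eu (φ : Fin (n + 1) → Fin (n + 1) → F) (v : F) (s t : ℝ) (p q : Ix n) : F :=
  (ww t)⁻¹ • (xv φ v s p * star (xv φ v s q))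

lemma ww_ne (h0 : 0 < t) (h1 : t < 1) : ww t ≠ 0 := by
  have h2 : (t : ℂ) ≠ 0 := by exact_mod_cast h0.ne'
  have h3 : (1 - t : ℂ) ≠ 0 := by
    have : (1 - t : ℝ) ≠ 0 := by linarith
    exact_mod_cast this
  exact mul_ne_zero (pow_ne_zero _ h2) (pow_ne_zero _ h3)

lemma ww_star : star (ww t)⁻¹ = (ww t)⁻¹ := by
  have : ww t = ((t ^ 2 * (1 - t) ^ 2 : ℝ) : ℂ) := by
    rw [ww]; push_cast; rfl
  rw [this, ← Complex.ofReal_inv]
  exact Complex.conj_ofReal _

lemma eu_mul (hR : RV φ v) (hz : zel φ v = (t : ℂ) • (1 : F)) {s : ℝ} (hs : s * s = t) (h0 : 0 < t)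
    (h1 : t < 1) (p q r u : Ix n) :
    eu φ v s t p q * eu φ v s t r u = if q = r then eu φ v s t p u else 0 := by
  have h2 := ww_ne h0 h1
  rw [eu, eu, smul_mul_smul_comm]
  have h3 : xv φ v s p * star (xv φ v s q) * (xv φ v s r * star (xv φ v s u)) =
      xv φ v s p * (star (xv φ v s q) * xv φ v s r) * star (xv φ v s u) := by noncomm_ring
  rw [h3, inner hR hz hs]
  split_ifs with h
  · rw [xv_y0 hR hz, smul_mul_assoc, smul_smul, eu, mul_assoc, inv_mul_cancel₀ h2, mul_one]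
  · rw [mul_zero, zero_mul, smul_zero]

lemma eu_star (s : ℝ) (p q : Ix n) : star (eu φ v s t p q) = eu φ v s t q p := by
  rw [eu, eu, star_smul, ww_star, star_mul, star_star]

lemma eu_sum (hR : RV φ v) (hz : zel φ v = (t : ℂ) • (1 : F)) {s : ℝ} (hs : s * s = t) (h0 : 0 < t)
    (h1 : t < 1) : ∑ p, eu φ v s t p p = 1 := by
  simp only [eu]
  rw [← Finset.smul_sum, xv_sum hR hz hs, smul_smul, inv_mul_cancel₀ (ww_ne h0 h1), one_smul]

lemma phi_eq (hR : RV φ v) (hz : zel φ v = (t : ℂ) • (1 : F)) {s : ℝ} (hs : s * s = t) (h0 : 0 < t)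
    (h1 : t < 1) (i j : Fin (n + 1)) :
    ∑ p, ∑ q, (D0 n i j (1 - t)) p q • eu φ v s t p q = φ i j := by
  have h2 : φ i j = ∑ q, φ i j * eu φ v s t q q := by
    rw [← Finset.mul_sum, eu_sum hR hz hs h0 h1, mul_one]
  conv_rhs => rw [h2]
  rw [Finset.sum_comm]
  refine Finset.sum_congr rfl fun q _ => ?_
  rw [Finset.sum_eq_single ((i, q.2) : Ix n)]
  · rw [eu, eu, mul_smul_comm, ← mul_assoc, phi_xv hR hz]
    by_cases h : j = q.1
    · have h3 : (D0 n i j (1 - t)) (i, q.2) q =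
          if q.2 = Fin.last (n + 1) then (1 - t : ℂ) else 1 := by
        show (if i = i ∧ q.1 = j ∧ q.2 = q.2 then
          (if q.2 = Fin.last (n + 1) then (((1 - t : ℝ)) : ℂ) else 1) else 0) = _
        rw [if_pos ⟨rfl, h.symm, rfl⟩]
        push_cast
        rfl
      rw [h3, if_pos h, smul_mul_assoc, smul_smul, smul_smul, mul_comm]
    · have h3 : (D0 n i j (1 - t)) (i, q.2) q = 0 := by
        show (if i = i ∧ q.1 = j ∧ q.2 = q.2 then
          (if q.2 = Fin.last (n + 1) then (((1 - t : ℝ)) : ℂ) else 1) else 0) = _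
        rw [if_neg fun h' => h h'.2.1.symm]
      rw [h3, if_neg h, zero_mul, smul_zero, zero_smul]
  · intro p _ hp
    have h3 : (D0 n i j (1 - t)) p q = 0 := by
      show (if p.1 = i ∧ q.1 = j ∧ p.2 = q.2 then
        (if p.2 = Fin.last (n + 1) then (((1 - t : ℝ)) : ℂ) else 1) else 0) = _
      rw [if_neg]
      rintro ⟨h4, -, h5⟩
      exact hp (Prod.ext h4 h5)
    rw [h3, zero_smul]
  · intro h
    exact absurd (Finset.mem_univ _) h

lemma v_eq (hR : RV φ v) (hz : zel φ v = (t : ℂ) • (1 : F)) {s : ℝ} (hs : s * s = t) (h0 : 0 < t)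
    (h1 : t < 1) : ∑ p, ∑ q, (V0 n s) p q • eu φ v s t p q = v := by
  have h2 : v = ∑ q, v * eu φ v s t q q := by
    rw [← Finset.mul_sum, eu_sum hR hz hs h0 h1, mul_one]
  conv_rhs => rw [h2]
  rw [Finset.sum_comm]
  refine Finset.sum_congr rfl fun q _ => ?_
  rw [Finset.sum_eq_single ((0, q.1.castSucc) : Ix n)]
  · rw [eu, eu, mul_smul_comm, ← mul_assoc, v_xv hR hz hs]
    by_cases h : q.2 = Fin.last (n + 1)
    · have h3 : (V0 n s) (0, q.1.castSucc) q = (s : ℂ) := by
        show (if (0 : Fin (n + 1)) = 0 ∧ q.2 = Fin.last (n + 1) ∧ q.1.castSucc = q.1.castSucc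
          then (s : ℂ) else 0) = _
        rw [if_pos ⟨rfl, h, rfl⟩]
      rw [h3, if_pos h, smul_mul_assoc, smul_smul, smul_smul, mul_comm]
    · have h3 : (V0 n s) (0, q.1.castSucc) q = 0 := by
        show (if (0 : Fin (n + 1)) = 0 ∧ q.2 = Fin.last (n + 1) ∧ q.1.castSucc = q.1.castSucc
          then (s : ℂ) else 0) = _
        rw [if_neg fun h' => h h'.2.1]
      rw [h3, if_neg h, zero_mul, smul_zero, zero_smul]
  · intro p _ hp
    have h3 : (V0 n s) p q = 0 := by
      show (if p.1 = 0 ∧ q.2 = Fin.last (n + 1) ∧ p.2 = q.1.castSucc then (s : ℂ) else 0) = _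
      rw [if_neg]
      rintro ⟨h4, -, h5⟩
      exact hp (Prod.ext h4 h5)
    rw [h3, zero_smul]
  · intro h
    exact absurd (Finset.mem_univ _) h

end

/-- conjugation by a unitary -/
def cj {A : Type} [CStarAlgebra A] (W : A) (h1 : W * star W = 1) (h2 : star W * W = 1) :
    A →⋆ₐ[ℂ] A where
  toFun M := star W * M * W
  map_one' := by rw [mul_one, h2]
  map_mul' M N := by
    have : star W * M * W * (star W * N * W) = star W * M * (W * star W) * N * W := by noncomm_ring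
    rw [this, h1, mul_one]
    noncomm_ring
  map_zero' := by rw [mul_zero, zero_mul]
  map_add' M N := by rw [mul_add, add_mul]
  commutes' c := by
    rw [Algebra.algebraMap_eq_smul_one, mul_smul_comm, smul_mul_assoc, mul_one, h2]
  map_star' M := by
    rw [star_mul, star_mul, star_star, mul_assoc]

/-- evaluation -/
def evD (n : ℕ) (T : unitInterval) : dimDrop n →⋆ₐ[ℂ] MM n where
  toFun f := (f : C(unitInterval, MM n)) T
  map_one' := rfl
  map_mul' _ _ := rfl
  map_zero' := rfl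
  map_add' _ _ := rfl
  commutes' _ := rfl
  map_star' _ := rfl

theorem t_FBM : S_FBM := by
  intro n t h0 h1 F _ φ v hR hz φ0 k0 v0 hV
  obtain ⟨s, hs⟩ : ∃ s : ℝ, s = Real.sqrt t := ⟨_, rfl⟩
  have hss : s * s = t := by rw [hs]; exact Real.mul_self_sqrt h0.le
  have hW := (Pool.Agent.H308R2.ZS.T_WU.t_WU n).2.2.2.2.2.2.2 t
  let T : unitInterval := ⟨t, h0.le, h1.le⟩
  let ρ : MM n →⋆ₐ[ℂ] F := rho (eu φ v s t) (eu_mul hR hz hss h0 h1) (eu_star s)
    (eu_sum hR hz hss h0 h1)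
  let σ : dimDrop n →⋆ₐ[ℂ] F := (ρ.comp (cj (WW n t) hW.1 hW.2)).comp (evD n T)
  have hσ : ∀ f : dimDrop n, σ f = ρ (star (WW n t) * (f : C(unitInterval, MM n)) T * WW n t) :=
    fun f => rfl
  have hc : ∀ M : MM n, star (WW n t) * (WW n t * M * star (WW n t)) * WW n t = M := by
    intro M
    have : star (WW n t) * (WW n t * M * star (WW n t)) * WW n t =
        (star (WW n t) * WW n t) * M * (star (WW n t) * WW n t) := by noncomm_ring
    rw [this, hW.2, one_mul, mul_one]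
  refine ⟨σ, ?_, ?_⟩
  · intro i j
    rw [hσ, hV.ph]
    show ρ (star (WW n t) * (WW n t * D0 n i j (1 - t) * star (WW n t)) * WW n t) = φ i j
    rw [hc]
    exact phi_eq hR hz hss h0 h1 i j
  · rw [hσ, hV.vh]
    show ρ (star (WW n t) * (WW n t * V0 n (Real.sqrt t) * star (WW n t)) * WW n t) = v
    rw [hc, ← hs]
    exact v_eq hR hz hss h0 h1

end Pool.Agent.N403.DTFBM
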